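import Mathlib
import Pool.Agent.X198.ST.Conv

namespace Pool.Agent.Results.MP_06c979_gt.ImagesUpToContinuum

open Set Topology Filter Cardinal

universe u

/-- `X` is Staeckel-compact: Hausdorff, and some linear order on the set `X` gives every
non-empty closed subset of `X` a least and a greatest element. -/
def StaeckelCompact (X : Type u) [TopologicalSpace X] : Prop :=
  T2Space X ∧ ∃ _ : LinearOrder X, ∀ F : Set X, IsClosed F → F.Nonempty →
    (∃ a, IsLeast F a) ∧ (∃ a, IsGreatest F a)

/-- `X` is countably compact: every sequence in `X` has a cluster point. -/
def CountablyCompact (X : Type u) [TopologicalSpace X] : Prop :=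
  ∀ z : ℕ → X, ∃ x, MapClusterPt x atTop z

/-- (1) Let `Y` be a Hausdorff space of cardinality at most the continuum. Then `Y` is a
continuous image of a Staeckel-compact space if and only if `Y` is countably compact.
(2) The statement of Q1 for images of cardinality at most the continuum is equivalent to:
every countably compact Hausdorff space of cardinality at most the continuum is
Staeckel-compact. -/
theorem result :
    (∀ (Y : Type u) [TopologicalSpace Y], T2Space Y → Cardinal.mk Y ≤ Cardinal.continuum →
      ((∃ (X : Type u) (_ : TopologicalSpace X) (f : X → Y), StaeckelCompact X ∧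
        Continuous f ∧ Function.Surjective f) ↔ CountablyCompact Y)) ∧
    ((∀ (X Y : Type u) [TopologicalSpace X] [TopologicalSpace Y] (f : X → Y),
        StaeckelCompact X → T2Space Y → Continuous f →
        Cardinal.mk (range f) ≤ Cardinal.continuum → StaeckelCompact (range f)) ↔
      (∀ (Y : Type u) [TopologicalSpace Y], T2Space Y →
        Cardinal.mk Y ≤ Cardinal.continuum → CountablyCompact Y → StaeckelCompact Y)) := by
  refine ⟨?_, ?_⟩
  · intro Y _ h2 hc
    exact Pool.Agent.X198.ST.char Y h2 hc
  · exact Pool.Agent.X198.ST.equiv_form

end Pool.Agent.Results.MP_06c979_gt.ImagesUpToContinuum
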